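import Pool.Agent.Q129.NeighborLocating

set_option autoImplicit false

/-!
# Neighbor-locating chromatic number against the path of the same diameter

There is a connected graph with 26 vertices and diameter 24 whose neighbor-locating chromatic
number is smaller than the one of the path with 25 vertices.
-/

theorem Pool.Agent.Results.MP_fdbc88_co.Counterexample.result :
    ∃ G : SimpleGraph (Fin 26), G.Connected ∧ G.diam = 24 ∧
      Q129.NeighborLocating.chiNL G ≤ 4 ∧
      5 ≤ Q129.NeighborLocating.chiNL (SimpleGraph.pathGraph 25) ∧
      Q129.NeighborLocating.chiNL G <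
        Q129.NeighborLocating.chiNL (SimpleGraph.pathGraph (24 + 1)) :=
  ⟨Q129.NeighborLocating.ex, Q129.NeighborLocating.ex_connected, Q129.NeighborLocating.ex_diam,
    Q129.NeighborLocating.chiNL_ex, Q129.NeighborLocating.chiNL_path,
    lt_of_le_of_lt Q129.NeighborLocating.chiNL_ex
      (Nat.lt_of_succ_le Q129.NeighborLocating.chiNL_path)⟩
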